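import Pool.Agent.BEO.Stmts

/-!
Row EVO of table beo.
-/

namespace Pool.Agent.BEO.H44

open Set Filter Topology MeasureTheory
open scoped InnerProductSpace ENNReal
open Pool.Agent.BE01 Pool.Agent.BEO

variable {d : ℕ}

theorem ev_add (P Q : Pl d) (x : En d) : ev (P + Q) x = ev P x + ev Q x := by
  simp [ev]

theorem ev_mul (P Q : Pl d) (x : En d) : ev (P * Q) x = ev P x * ev Q x := by
  simp [ev]

theorem ev_C (c : ℝ) (x : En d) : ev (MvPolynomial.C c) x = c := by
  simp [ev]

theorem ev_X (i : Fin d) (x : En d) : ev (MvPolynomial.X i) x = x i := by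
  simp [ev]

theorem ev_rho (x : En d) : ev (rho d) x = ‖x‖ ^ 2 := by
  rw [EuclideanSpace.real_norm_sq_eq]
  simp [ev, rho]

theorem ev_contDiff (P : Pl d) : ContDiff ℝ ((⊤ : ℕ∞) : WithTop ℕ∞) (ev P) := by
  induction P using MvPolynomial.induction_on with
  | C a =>
    have : ev (d := d) (MvPolynomial.C a) = fun _ => a := funext fun x => ev_C a x
    rw [this]
    exact contDiff_const
  | add P Q hP hQ =>
    have : ev (P + Q) = fun x => ev P x + ev Q x := funext fun x => ev_add P Q x
    rw [this]
    exact hP.add hQ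
  | mul_X P i hP =>
    have : ev (P * MvPolynomial.X i) = fun x => ev P x * x i := funext fun x => by
      rw [ev_mul, ev_X]
    rw [this]
    exact hP.mul (EuclideanSpace.proj (𝕜 := ℝ) i : En d →L[ℝ] ℝ).contDiff

/-- the differential -/
noncomputable def DD (P : Pl d) (x : En d) : En d →L[ℝ] ℝ :=
  ∑ i : Fin d, ev (MvPolynomial.pderiv i P) x • (EuclideanSpace.proj (𝕜 := ℝ) i : En d →L[ℝ] ℝ)

theorem DD_apply (P : Pl d) (x v : En d) :
    DD P x v = ∑ i : Fin d, ev (MvPolynomial.pderiv i P) x * v i := by
  simp [DD]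

theorem hasFDerivAt_ev (P : Pl d) (x : En d) : HasFDerivAt (ev P) (DD P x) x := by
  induction P using MvPolynomial.induction_on with
  | C a =>
    have h1 : ev (d := d) (MvPolynomial.C a) = fun _ => a := funext fun x => ev_C a x
    have h2 : DD (MvPolynomial.C a) x = 0 := by
      ext v
      rw [DD_apply]
      simp [ev]
    rw [h1, h2]
    exact hasFDerivAt_const a x
  | add P Q hP hQ =>
    have h1 : ev (P + Q) = fun x => ev P x + ev Q x := funext fun x => ev_add P Q x
    have h2 : DD (P + Q) x = DD P x + DD Q x := by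
      ext v
      rw [ContinuousLinearMap.add_apply, DD_apply, DD_apply, DD_apply, ← Finset.sum_add_distrib]
      refine Finset.sum_congr rfl fun i _ => ?_
      rw [map_add, ev_add]; ring
    rw [h1, h2]
    exact hP.add hQ
  | mul_X P i hP =>
    have h1 : ev (P * MvPolynomial.X i) = fun x => ev P x * x i := funext fun x => by
      rw [ev_mul, ev_X]
    have h2 : DD (P * MvPolynomial.X i) x =
        ev P x • (EuclideanSpace.proj (𝕜 := ℝ) i : En d →L[ℝ] ℝ) + x i • DD P x := by
      ext v
      rw [ContinuousLinearMap.add_apply, ContinuousLinearMap.smul_apply,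
        ContinuousLinearMap.smul_apply, DD_apply, DD_apply, smul_eq_mul, smul_eq_mul]
      have h3 : ∀ j : Fin d, ev (MvPolynomial.pderiv j (P * MvPolynomial.X i)) x * v j =
          (if i = j then ev P x * v j else 0) +
            x i * (ev (MvPolynomial.pderiv j P) x * v j) := by
        intro j
        rw [MvPolynomial.pderiv_mul, ev_add, ev_mul, ev_mul, ev_X, MvPolynomial.pderiv_X]
        by_cases hij : i = j
        · subst hij
          rw [if_pos rfl, Pi.single_eq_same]
          have : ev (1 : Pl d) x = 1 := by simp [ev]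
          rw [this]; ring
        · rw [if_neg hij, Pi.single_eq_of_ne hij]
          have : ev (0 : Pl d) x = 0 := by simp [ev]
          rw [this]; ring
      rw [Finset.sum_congr rfl fun j _ => h3 j, Finset.sum_add_distrib, ← Finset.mul_sum,
        Finset.sum_ite_eq]
      simp
    rw [h1, h2]
    exact hP.mul (EuclideanSpace.proj (𝕜 := ℝ) i : En d →L[ℝ] ℝ).hasFDerivAt

theorem gradient_ev (P : Pl d) (x : En d) (i : Fin d) :
    gradient (ev P) x i = ev (MvPolynomial.pderiv i P) x := by
  have h1 : fderiv ℝ (ev P) x = DD P x := (hasFDerivAt_ev P x).fderiv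
  have h2 : ⟪gradient (ev P) x, EuclideanSpace.single i (1 : ℝ)⟫_ℝ =
      fderiv ℝ (ev P) x (EuclideanSpace.single i (1 : ℝ)) := by
    unfold gradient
    exact InnerProductSpace.toDual_symm_apply
  rw [h1, DD_apply, EuclideanSpace.inner_single_right] at h2
  have h3 : ∀ j : Fin d, ev (MvPolynomial.pderiv j P) x *
      (EuclideanSpace.single i (1 : ℝ) : En d) j =
      if j = i then ev (MvPolynomial.pderiv j P) x else 0 := by
    intro j
    rw [EuclideanSpace.single_apply]
    split_ifs <;> simp
  rw [Finset.sum_congr rfl fun j _ => h3 j, Finset.sum_ite_eq'] at h2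
  simpa using h2

theorem ev_bdd (P : Pl d) (R : ℝ) : ∃ C : ℝ, ∀ x : En d, ‖x‖ ≤ R → |ev P x| ≤ C := by
  obtain ⟨C, hC⟩ := (isCompact_closedBall (0 : En d) R).exists_bound_of_continuousOn
    (ev_contDiff P).continuous.continuousOn
  refine ⟨C, fun x hx => ?_⟩
  have := hC x (by rw [mem_closedBall_zero_iff]; exact hx)
  rwa [Real.norm_eq_abs] at this

theorem evo : EvoStmt := fun _ =>
  ⟨ev_contDiff, gradient_ev, ev_add, ev_mul, ev_C, ev_rho, ev_X, ev_bdd⟩

end Pool.Agent.BEO.H44
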